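import Pool.Agent.Helper76.FT.GoalsG

/-!
# FT-THIN: thin tori are close to one leaf
-/

set_option autoImplicit false

namespace Pool.Agent.Helper39.FT

open Pool.Agent.Helper76.FT
open Complex Set Filter Topology

/-- uniform continuity of the leaves in the label -/
theorem V_unif (S : Sys) (hS : S.Ok) : ∀ ε : ℝ, 0 < ε → ∃ e : ℝ, 0 < e ∧
    ∀ Y ∈ Icc S.a S.b, ∀ Y' ∈ Icc S.a S.b, |Y - Y'| ≤ e → ∀ x : ℝ, ∀ t ∈ Icc (0:ℝ) 1,
      |S.V Y x t - S.V Y' x t| < ε := by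
  intro ε hε
  have hcpt : IsCompact (Icc S.a S.b ×ˢ (Icc (0:ℝ) 1 ×ˢ Icc (0:ℝ) 1)) :=
    isCompact_Icc.prod (isCompact_Icc.prod isCompact_Icc)
  have hcont : ContinuousOn (fun z : ℝ × ℝ × ℝ => S.V z.1 z.2.1 z.2.2)
      (Icc S.a S.b ×ˢ (Icc (0:ℝ) 1 ×ˢ Icc (0:ℝ) 1)) := by
    apply hS.Vcont.mono
    intro z hz
    exact ⟨hz.1, mem_univ _, hz.2.2⟩
  have huc := hcpt.uniformContinuousOn_of_continuous hcont
  rw [Metric.uniformContinuousOn_iff] at huc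
  obtain ⟨d, hd, hh⟩ := huc ε hε
  refine ⟨d / 2, by positivity, ?_⟩
  intro Y hY Y' hY' hYY x t ht
  have hper : ∀ Z ∈ Icc S.a S.b, S.V Z x t = S.V Z (Int.fract x) t := by
    intro Z hZ
    have hp : Function.Periodic (fun q => S.V Z q t) 1 := fun q => hS.Vper Z hZ q t ht
    have := hp.sub_int_mul_eq (x := x) ⌊x⌋
    simp only [mul_one] at this
    rw [← this]
    rfl
  rw [hper Y hY, hper Y' hY']
  have hf : Int.fract x ∈ Icc (0:ℝ) 1 := ⟨Int.fract_nonneg x, (Int.fract_lt_one x).le⟩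
  have := hh (Y, Int.fract x, t) ⟨hY, hf, ht⟩ (Y', Int.fract x, t) ⟨hY', hf, ht⟩ (by
    rw [Prod.dist_eq]
    simp only [dist_self, Real.dist_eq, abs_nonneg, sup_of_le_left]
    linarith)
  rwa [Real.dist_eq] at this

/-- inverse modulus of `mn` -/
theorem mn_inv (S : Sys) (hc : ContinuousOn S.mn (Icc S.a S.b))
    (hm : StrictMonoOn S.mn (Icc S.a S.b)) : ∀ e : ℝ, 0 < e → ∃ e' : ℝ, 0 < e' ∧
    ∀ Y ∈ Icc S.a S.b, ∀ Y' ∈ Icc S.a S.b, |S.mn Y - S.mn Y'| < e' → |Y - Y'| ≤ e := by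
  intro e he
  set K : Set (ℝ × ℝ) := (Icc S.a S.b ×ˢ Icc S.a S.b) ∩ {z | e ≤ |z.1 - z.2|} with hK
  have hKc : IsCompact K := by
    apply (isCompact_Icc.prod isCompact_Icc).inter_right
    exact isClosed_le continuous_const (by fun_prop)
  rcases K.eq_empty_or_nonempty with hE | hN
  · refine ⟨1, one_pos, ?_⟩
    intro Y hY Y' hY' _
    by_contra hcon
    push Not at hcon
    have : (Y, Y') ∈ K := ⟨⟨hY, hY'⟩, hcon.le⟩
    rw [hE] at this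
    exact this
  · have hcf : ContinuousOn (fun z : ℝ × ℝ => |S.mn z.1 - S.mn z.2|) K := by
      apply ContinuousOn.abs
      apply ContinuousOn.sub
      · exact hc.comp continuousOn_fst (fun z hz => hz.1.1)
      · exact hc.comp continuousOn_snd (fun z hz => hz.1.2)
    obtain ⟨z, hz, hmin⟩ := hKc.exists_isMinOn hN hcf
    have hpos : 0 < |S.mn z.1 - S.mn z.2| := by
      rw [abs_pos, sub_ne_zero]
      intro heq
      have := hm.injOn hz.1.1 hz.1.2 heq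
      have h2 : e ≤ |z.1 - z.2| := hz.2
      rw [this, sub_self, abs_zero] at h2
      linarith
    refine ⟨_, hpos, ?_⟩
    intro Y hY Y' hY' hlt
    by_contra hcon
    push Not at hcon
    have hmem : (Y, Y') ∈ K := ⟨⟨hY, hY'⟩, hcon.le⟩
    have := hmin hmem
    simp only [mem_setOf_eq] at this
    linarith

/-- positive minimum of finitely many positive numbers -/
theorem min_fin (E : ℕ → ℝ) (hE : ∀ j, 0 < E j) (N : ℕ) :
    ∃ e : ℝ, 0 < e ∧ ∀ j < N, e ≤ E j := by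
  induction N with
  | zero => exact ⟨1, one_pos, fun j hj => absurd hj (Nat.not_lt_zero j)⟩
  | succ n ih =>
    obtain ⟨e, he, h⟩ := ih
    refine ⟨min e (E n), lt_min he (hE n), ?_⟩
    intro j hj
    rcases Nat.lt_succ_iff_lt_or_eq.mp hj with h1 | h1
    · exact (min_le_left _ _).trans (h j h1)
    · rw [h1]; exact min_le_right _ _

/-- continuity of a torus on the real space-time strip -/
theorem w_cont {S : Sys} {δ ρ : ℝ} {w : ℂ → ℝ → ℂ} {c : ℂ} (hT : Tor S δ w ρ c) :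
    ContinuousOn (fun z : ℝ × ℝ => w (z.1 : ℂ) z.2) (univ ×ˢ Icc (0:ℝ) 1) := by
  have h1 : ContinuousOn (fun z : ℝ × ℝ => ((z.1 : ℂ), z.2)) (univ ×ˢ Icc (0:ℝ) 1) := by
    apply Continuous.continuousOn
    exact (Complex.continuous_ofReal.comp continuous_fst).prodMk continuous_snd
  have := hT.sh.cont.comp h1 (fun z hz => by
    refine ⟨?_, hz.2⟩
    simp only [Str, mem_setOf_eq, ofReal_im, abs_zero]
    exact hT.hρ)
  exact this

/-- points where the torus crosses a leaf -/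
theorem crossing {S : Sys} (hS : S.Ok) {δ ρ : ℝ} {w : ℂ → ℝ → ℂ} {c : ℂ} (hT : Tor S δ w ρ c)
    {Y : ℝ} (hY : Y ∈ Icc S.a S.b) {x x' t t' : ℝ} (ht : t ∈ Icc (0:ℝ) 1)
    (ht' : t' ∈ Icc (0:ℝ) 1) (h1 : (w (x : ℂ) t).re ≤ S.V Y x t)
    (h2 : S.V Y x' t' ≤ (w (x' : ℂ) t').re) :
    ∃ x₀ : ℝ, ∃ t₀ ∈ Icc (0:ℝ) 1, (w (x₀ : ℂ) t₀).re = S.V Y x₀ t₀ := by
  have hpre : IsPreconnected ((univ : Set ℝ) ×ˢ Icc (0:ℝ) 1) :=
    (convex_univ.prod (convex_Icc 0 1)).isPreconnected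
  have hVc : ContinuousOn (fun z : ℝ × ℝ => S.V Y z.1 z.2) (univ ×ˢ Icc (0:ℝ) 1) := by
    have h1 : ContinuousOn (fun z : ℝ × ℝ => (Y, z.1, z.2)) (univ ×ˢ Icc (0:ℝ) 1) := by
      apply Continuous.continuousOn
      fun_prop
    exact hS.Vcont.comp h1 (fun z hz => ⟨hY, mem_univ _, hz.2⟩)
  have hf : ContinuousOn (fun z : ℝ × ℝ => (w (z.1 : ℂ) z.2).re - S.V Y z.1 z.2)
      (univ ×ˢ Icc (0:ℝ) 1) := by
    apply ContinuousOn.sub _ hVc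
    exact Complex.continuous_re.comp_continuousOn (w_cont hT)
  have hiv := hpre.intermediate_value (a := (x, t)) (b := (x', t')) ⟨mem_univ _, ht⟩
    ⟨mem_univ _, ht'⟩ hf
  have h0 : (0:ℝ) ∈ Icc ((w (x : ℂ) t).re - S.V Y x t) ((w (x' : ℂ) t').re - S.V Y x' t') :=
    ⟨by linarith, by linarith⟩
  obtain ⟨z, hz, hz0⟩ := hiv h0
  exact ⟨z.1, z.2, hz.2, by simpa [sub_eq_zero] using hz0⟩

/-- the labels of a thin torus oscillate little -/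
theorem osc (S : Sys) (hS : S.Ok) (hH : GHeight) (h3 : GThree) : ∃ δ₀ : ℝ, 0 < δ₀ ∧
    (∀ e : ℝ, 0 < e → ∃ η : ℝ, 0 < η ∧
    ∀ (δ ρ : ℝ) (w : ℂ → ℝ → ℂ) (c : ℂ), δ ≤ δ₀ → Tor S δ w ρ c → c.im ≤ η →
    (∀ x : ℝ, ∀ t ∈ Icc (0:ℝ) 1, (w (x : ℂ) t).im < e) ∧
    ∀ Y ∈ Icc S.a S.b, ∀ Y' ∈ Icc S.a S.b, ∀ x : ℝ, ∀ t ∈ Icc (0:ℝ) 1, ∀ x' : ℝ,
      ∀ t' ∈ Icc (0:ℝ) 1, (w (x : ℂ) t).re = S.V Y x t → (w (x' : ℂ) t').re = S.V Y' x' t' →
      Y' ≤ Y + e) := by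
  obtain ⟨δH, C, hδH, hC, hHt⟩ := hH S hS
  refine ⟨min δH (S.r / 2), lt_min hδH (half_pos hS.hr), ?_⟩
  -- height
  have hIm : ∀ e : ℝ, 0 < e → ∃ η : ℝ, 0 < η ∧ ∀ (δ ρ : ℝ) (w : ℂ → ℝ → ℂ) (c : ℂ),
      δ ≤ min δH (S.r / 2) → Tor S δ w ρ c → c.im ≤ η → ∀ x : ℝ, ∀ t ∈ Icc (0:ℝ) 1,
      (w (x : ℂ) t).im < e := by
    intro e he
    refine ⟨e ^ 4 / (2 * C), by positivity, ?_⟩
    intro δ ρ w c hδ hT hc x t ht
    have h1 := (hHt δ ρ w c (hδ.trans (min_le_left _ _)) hT).2.1 x t ht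
    have h2 : C * c.im ≤ e ^ 4 / 2 := by
      calc C * c.im ≤ C * (e ^ 4 / (2 * C)) := by gcongr
        _ = e ^ 4 / 2 := by field_simp
    have h3 : (w (x : ℂ) t).im ^ 4 < e ^ 4 := by
      have : 0 < e ^ 4 := by positivity
      linarith
    exact lt_of_pow_lt_pow_left₀ 4 he.le h3
  intro e he
  have hab : 0 < S.b - S.a := by linarith [hS.ha, hS.hb]
  obtain ⟨N, hN⟩ := exists_nat_gt (4 * (S.b - S.a) / e)
  have hNpos : (0:ℝ) < N := lt_trans (by positivity) hN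
  set h : ℝ := (S.b - S.a) / N with hh
  have hhpos : 0 < h := by positivity
  have hh4 : 4 * h < e := by
    rw [hh]
    rw [div_lt_iff₀ he] at hN
    rw [← mul_div_assoc, div_lt_iff₀ hNpos]
    linarith
  have hNh : (N : ℝ) * h = S.b - S.a := by rw [hh]; field_simp
  have hex : ∀ j : ℕ, ∃ E : ℝ, 0 < E ∧ (S.a + (j + 2) * h ≤ S.b →
      ∀ (δ ρ : ℝ) (w : ℂ → ℝ → ℂ) (c : ℂ), δ < S.r → Tor S δ w ρ c →
      ∀ x₁ x₂ x₃ : ℝ, ∀ t₁ ∈ Icc (0:ℝ) 1, ∀ t₂ ∈ Icc (0:ℝ) 1, ∀ t₃ ∈ Icc (0:ℝ) 1,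
      ¬ (‖w (x₁ : ℂ) t₁ - (S.V (S.a + j * h) x₁ t₁ : ℝ)‖ < E ∧
        ‖w (x₂ : ℂ) t₂ - (S.V (S.a + (j + 1) * h) x₂ t₂ : ℝ)‖ < E ∧
        ‖w (x₃ : ℂ) t₃ - (S.V (S.a + (j + 2) * h) x₃ t₃ : ℝ)‖ < E)) := by
    intro j
    by_cases hj : S.a + (j + 2) * h ≤ S.b
    · have hj0 : (0:ℝ) ≤ j := Nat.cast_nonneg j
      have hjh : (0:ℝ) ≤ j * h := by positivity
      have i1 : S.a + j * h ∈ Icc S.a S.b := ⟨by linarith, by nlinarith⟩
      have i2 : S.a + (j + 1) * h ∈ Icc S.a S.b := ⟨by nlinarith, by nlinarith⟩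
      have i3 : S.a + (j + 2) * h ∈ Icc S.a S.b := ⟨by nlinarith, hj⟩
      obtain ⟨E, hE, hEE⟩ := h3 S hS _ i1 _ i2 _ i3 (by nlinarith) (by nlinarith)
      exact ⟨E, hE, fun _ => hEE⟩
    · exact ⟨1, one_pos, fun h' => absurd h' hj⟩
  choose E hE hEE using hex
  obtain ⟨E₀, hE₀, hE₀le⟩ := min_fin E hE (N + 1)
  obtain ⟨η₁, hη₁, hη₁'⟩ := hIm E₀ hE₀
  obtain ⟨η₂, hη₂, hη₂'⟩ := hIm e he
  refine ⟨min η₁ η₂, lt_min hη₁ hη₂, ?_⟩
  intro δ ρ w c hδ hT hc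
  have him := hη₁' δ ρ w c hδ hT (hc.trans (min_le_left _ _))
  have hδr : δ < S.r := by
    have := hδ.trans (min_le_right _ _)
    linarith [hS.hr]
  refine ⟨hη₂' δ ρ w c hδ hT (hc.trans (min_le_right _ _)), ?_⟩
  intro Y hY Y' hY' x t ht x' t' ht' hw hw'
  by_contra hcon
  push Not at hcon
  -- the grid points between `Y` and `Y'`
  set j : ℕ := ⌊(Y - S.a) / h⌋₊ + 1 with hj
  have hYa : 0 ≤ (Y - S.a) / h := div_nonneg (by linarith [hY.1]) hhpos.le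
  have hfl : ((⌊(Y - S.a) / h⌋₊ : ℕ) : ℝ) ≤ (Y - S.a) / h := Nat.floor_le hYa
  have hfl2 : (Y - S.a) / h < (⌊(Y - S.a) / h⌋₊ : ℕ) + 1 := Nat.lt_floor_add_one _
  have hjc : (j : ℝ) = (⌊(Y - S.a) / h⌋₊ : ℕ) + 1 := by rw [hj]; push_cast; ring
  have hlow : Y < S.a + j * h := by
    rw [← hjc, div_lt_iff₀ hhpos] at hfl2
    linarith
  have hup : S.a + j * h ≤ Y + h := by
    have : ((j : ℝ) - 1) ≤ (Y - S.a) / h := by rw [hjc]; linarith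
    rw [le_div_iff₀ hhpos] at this
    linarith
  have hj2 : S.a + (j + 2) * h < Y' := by
    have : S.a + (j + 2) * h = S.a + j * h + 2 * h := by ring
    rw [this]; linarith
  have hj1 : S.a + (j + 1) * h < Y' := by
    have : S.a + (j + 2) * h = S.a + (j + 1) * h + h := by ring
    linarith
  have hj0 : S.a + j * h < Y' := by
    have : S.a + (j + 1) * h = S.a + j * h + h := by ring
    linarith
  have hj1' : Y < S.a + (j + 1) * h := by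
    have : S.a + (j + 1) * h = S.a + j * h + h := by ring
    linarith
  have hj2' : Y < S.a + (j + 2) * h := by
    have : S.a + (j + 2) * h = S.a + (j + 1) * h + h := by ring
    linarith
  have hjN : j < N + 1 := by
    have h1 : (j : ℝ) * h < (N : ℝ) * h := by
      rw [hNh]; linarith [hY'.2]
    have h2 : (j : ℝ) < N := lt_of_mul_lt_mul_right h1 hhpos.le
    have h3 : j < N := by exact_mod_cast h2
    omega
  -- crossing points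
  have hcr : ∀ Z : ℝ, Y < Z → Z < Y' → ∃ x₀ : ℝ, ∃ t₀ ∈ Icc (0:ℝ) 1,
      ‖w (x₀ : ℂ) t₀ - (S.V Z x₀ t₀ : ℝ)‖ < E₀ := by
    intro Z hZ1 hZ2
    have hZ : Z ∈ Icc S.a S.b := ⟨by linarith [hY.1], by linarith [hY'.2]⟩
    obtain ⟨x₀, t₀, ht₀, hx₀⟩ := crossing hS hT hZ ht ht'
      (by rw [hw]; exact (hS.Vmono Y hY Z hZ hZ1 x t ht).le)
      (by rw [hw']; exact (hS.Vmono Z hZ Y' hY' hZ2 x' t' ht').le)
    refine ⟨x₀, t₀, ht₀, ?_⟩
    have heq : w (x₀ : ℂ) t₀ - (S.V Z x₀ t₀ : ℝ) = ((w (x₀ : ℂ) t₀).im : ℂ) * I := by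
      apply Complex.ext
      · simp [hx₀]
      · simp
    rw [heq, norm_mul, norm_I, mul_one, Complex.norm_real, Real.norm_eq_abs,
      abs_of_pos (hT.pos x₀ t₀ ht₀).1]
    exact him x₀ t₀ ht₀
  obtain ⟨x₁, t₁, ht₁, hx₁⟩ := hcr _ hlow hj0
  obtain ⟨x₂, t₂, ht₂, hx₂⟩ := hcr _ hj1' hj1
  obtain ⟨x₃, t₃, ht₃, hx₃⟩ := hcr _ hj2' hj2
  have hEj := hE₀le j hjN
  exact hEE j (by linarith [hY'.2]) δ ρ w c hδr hT x₁ x₂ x₃ t₁ ht₁ t₂ ht₂ t₃ ht₃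
    ⟨hx₁.trans_le hEj, hx₂.trans_le hEj, hx₃.trans_le hEj⟩

/-- mean momentum of a torus close to a leaf -/
theorem mean_close (S : Sys) (hS : S.Ok) (hR : GReg) (hM : GMom) : ∃ M : ℝ, 0 < M ∧
    ∀ (δ ρ : ℝ) (w : ℂ → ℝ → ℂ) (c : ℂ), Tor S δ w ρ c → ∀ Y ∈ Icc S.a S.b, ∀ e : ℝ, 0 < e →
    e < S.r → (∀ x : ℝ, ‖w (x : ℂ) 0 - (S.V Y x 0 : ℝ)‖ ≤ e) → |S.mn Y - c.re| ≤ M * e := by
  obtain ⟨k0, M, hk0, hM0, hpc, hEc, hh⟩ := hM S hS
  obtain ⟨_, hreg2, _⟩ := hR S hS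
  refine ⟨M, hM0, ?_⟩
  intro δ ρ w c hT Y hY e he her hwe
  have h0 : (0:ℝ) ∈ Icc (0:ℝ) 1 := ⟨le_rfl, zero_le_one⟩
  have hnb : ∀ x : ℝ, ∀ v : ℂ, ‖v - (S.V Y x 0 : ℝ)‖ < S.r → ((x : ℂ), v) ∈ S.Nb 0 S.r := by
    intro x v hv
    refine ⟨(x, S.V Y x 0), hreg2 0 h0 x Y hY, ?_, hv⟩
    simpa using hS.hr
  have hlip : ∀ x : ℝ, ‖S.p 0 (x : ℂ) (w (x : ℂ) 0) - S.p 0 (x : ℂ) (S.V Y x 0 : ℝ)‖
      ≤ M * e := by
    intro x
    have hconv : Convex ℝ (Metric.ball ((S.V Y x 0 : ℝ) : ℂ) S.r) := convex_ball _ _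
    have hd : ∀ v ∈ Metric.ball ((S.V Y x 0 : ℝ) : ℂ) S.r,
        HasDerivWithinAt (fun v => S.p 0 (x : ℂ) v) (S.κ ((x : ℂ) - (0:ℝ) * v) v)
          (Metric.ball ((S.V Y x 0 : ℝ) : ℂ) S.r) v := by
      intro v hv
      have := ((hh 0 h0).2.2 ((x : ℂ), v) (hnb x v (by
        rwa [Metric.mem_ball, dist_eq_norm] at hv))).1
      exact this.hasDerivWithinAt
    have hb : ∀ v ∈ Metric.ball ((S.V Y x 0 : ℝ) : ℂ) S.r,
        ‖S.κ ((x : ℂ) - (0:ℝ) * v) v‖ ≤ M := by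
      intro v hv
      exact ((hh 0 h0).2.2 ((x : ℂ), v) (hnb x v (by
        rwa [Metric.mem_ball, dist_eq_norm] at hv))).2.2.2.2.1
    have hfin := hconv.norm_image_sub_le_of_norm_hasDerivWithin_le hd hb
      (x := ((S.V Y x 0 : ℝ) : ℂ)) (y := w (x : ℂ) 0) (Metric.mem_ball_self hS.hr) (by
        rw [Metric.mem_ball, dist_eq_norm]; exact (hwe x).trans_lt her)
    exact hfin.trans (by gcongr; exact hwe x)
  -- continuity in `x`
  have hρ0 : ∀ x : ℝ, ((x : ℂ)) ∈ Str ρ := by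
    intro x
    simp only [Str, mem_setOf_eq, ofReal_im, abs_zero]
    exact hT.hρ
  have hwc : Continuous (fun x : ℝ => w (x : ℂ) 0) := by
    have h1 : Continuous (fun x : ℝ => (x, (0:ℝ))) := by fun_prop
    have := (w_cont hT).comp_continuous h1 (fun x => ⟨mem_univ _, h0⟩)
    exact this
  have hVc : Continuous (fun x : ℝ => S.V Y x 0) := by
    have h1 : Continuous (fun x : ℝ => (Y, x, (0:ℝ))) := by fun_prop
    have := hS.Vcont.comp_continuous h1 (fun x => ⟨hY, mem_univ _, h0⟩)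
    exact this
  have hc1 : Continuous (fun x : ℝ => S.p 0 (x : ℂ) (w (x : ℂ) 0)) := by
    have h1 : Continuous (fun x : ℝ => ((0:ℝ), ((x : ℂ), w (x : ℂ) 0))) :=
      continuous_const.prodMk (Complex.continuous_ofReal.prodMk hwc)
    have := hpc.comp_continuous h1 (fun x => ⟨h0, hT.nb _ (hρ0 x) 0 h0⟩)
    exact this
  have hc2 : Continuous (fun x : ℝ => S.p 0 (x : ℂ) ((S.V Y x 0 : ℝ) : ℂ)) := by
    have h1 : Continuous (fun x : ℝ => ((0:ℝ), ((x : ℂ), ((S.V Y x 0 : ℝ) : ℂ)))) :=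
      continuous_const.prodMk (Complex.continuous_ofReal.prodMk
        (Complex.continuous_ofReal.comp hVc))
    have := hpc.comp_continuous h1 (fun x => ⟨h0, hnb x _ (by simpa using hS.hr)⟩)
    exact this
  have hi1 : IntervalIntegrable (fun x : ℝ => S.p 0 (x : ℂ) (w (x : ℂ) 0))
      MeasureTheory.volume 0 1 := hc1.intervalIntegrable _ _
  have hre : c.re = ∫ x in (0:ℝ)..1, (S.p 0 (x : ℂ) (w (x : ℂ) 0)).re := by
    rw [← hT.mean]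
    have := Complex.reCLM.intervalIntegral_comp_comm hi1
    simpa using this.symm
  have hdiff : S.mn Y - c.re = ∫ x in (0:ℝ)..1, ((S.p 0 (x : ℂ) ((S.V Y x 0 : ℝ) : ℂ)).re
      - (S.p 0 (x : ℂ) (w (x : ℂ) 0)).re) := by
    rw [hre, Sys.mn, intervalIntegral.integral_sub]
    · exact (Complex.continuous_re.comp hc2).intervalIntegrable _ _
    · exact (Complex.continuous_re.comp hc1).intervalIntegrable _ _
  rw [hdiff]
  have hb := intervalIntegral.norm_integral_le_of_norm_le_const (a := (0:ℝ)) (b := 1)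
    (f := fun x : ℝ => (S.p 0 (x : ℂ) ((S.V Y x 0 : ℝ) : ℂ)).re
      - (S.p 0 (x : ℂ) (w (x : ℂ) 0)).re) (C := M * e) (by
      intro x _
      rw [Real.norm_eq_abs, ← Complex.sub_re]
      refine (Complex.abs_re_le_norm _).trans ?_
      rw [norm_sub_rev]
      exact hlip x)
  simpa using hb

theorem ft_thin : GReg → GMom → GMn → GTorP → GHeight → GThree → GThin := by
  intro hR hM hMn _ hH h3 S hS
  obtain ⟨δ₀, hδ₀, hosc⟩ := osc S hS hH h3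
  obtain ⟨M, hM0, hmean⟩ := mean_close S hS hR hM
  obtain ⟨hmc, hmm, _⟩ := hMn S hS
  obtain ⟨hreg1, _⟩ := hR S hS
  refine ⟨δ₀, hδ₀, ?_⟩
  intro ε hε
  obtain ⟨e₂, he₂, hV2⟩ := V_unif S hS (ε / 3) (by positivity)
  obtain ⟨e₃, he₃, hmi⟩ := mn_inv S hmc hmm e₂ he₂
  set ε₁ : ℝ := min (ε / 3) (min (e₃ / (2 * M)) (S.r / 2)) with hε₁
  have hr := hS.hr
  have hε₁pos : 0 < ε₁ := by
    rw [hε₁]; exact lt_min (by positivity) (lt_min (by positivity) (by positivity))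
  obtain ⟨e₁, he₁, hV1⟩ := V_unif S hS (ε₁ / 2) (by positivity)
  obtain ⟨η, hη, hηη⟩ := hosc (min e₁ (ε₁ / 2)) (lt_min he₁ (by positivity))
  refine ⟨η, hη, ?_⟩
  intro δ ρ w c hδ hT hc Y hY hYc x t ht
  obtain ⟨him, hlab⟩ := hηη δ ρ w c hδ hT hc
  have h0 : (0:ℝ) ∈ Icc (0:ℝ) 1 := ⟨le_rfl, zero_le_one⟩
  obtain ⟨Y', hY', hYw⟩ := hreg1 0 h0 _ (hT.reg 0 0 h0)
  simp only at hYw
  have hclose : ∀ x : ℝ, ∀ t ∈ Icc (0:ℝ) 1, ‖w (x : ℂ) t - (S.V Y' x t : ℝ)‖ ≤ ε₁ := by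
    intro x t ht
    obtain ⟨Z, hZ, hZw⟩ := hreg1 t ht _ (hT.reg x t ht)
    simp only at hZw
    have l1 := hlab Y' hY' Z hZ 0 0 h0 x t ht hYw hZw
    have l2 := hlab Z hZ Y' hY' x t ht 0 0 h0 hZw hYw
    have hZY : |Z - Y'| ≤ e₁ := by
      have := min_le_left e₁ (ε₁ / 2)
      rw [abs_le]; constructor <;> linarith
    have hv := hV1 Z hZ Y' hY' hZY x t ht
    have hi := him x t ht
    have hi2 := hi.trans_le (min_le_right e₁ (ε₁ / 2))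
    have hpos := (hT.pos x t ht).1
    have heq : w (x : ℂ) t - (S.V Y' x t : ℝ)
        = ((S.V Z x t - S.V Y' x t : ℝ) : ℂ) + ((w (x : ℂ) t).im : ℂ) * I := by
      apply Complex.ext
      · simp [hZw]
      · simp
    rw [heq]
    refine (norm_add_le _ _).trans ?_
    rw [norm_mul, norm_I, mul_one, Complex.norm_real, Complex.norm_real, Real.norm_eq_abs,
      Real.norm_eq_abs, abs_of_pos hpos]
    linarith
  have hε₁r : ε₁ < S.r := by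
    have : ε₁ ≤ S.r / 2 := (min_le_right _ _).trans (min_le_right _ _)
    linarith
  have hmn := hmean δ ρ w c hT Y' hY' ε₁ hε₁pos hε₁r (fun x => hclose x 0 h0)
  have hMe : M * ε₁ < e₃ := by
    have h1 : ε₁ ≤ e₃ / (2 * M) := (min_le_right _ _).trans (min_le_left _ _)
    have h2 : M * ε₁ ≤ M * (e₃ / (2 * M)) := by gcongr
    have h3 : M * (e₃ / (2 * M)) = e₃ / 2 := by field_simp
    linarith
  have hYY : |Y' - Y| ≤ e₂ := hmi Y' hY' Y hY (by rw [hYc]; linarith)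
  have hv := hV2 Y' hY' Y hY hYY x t ht
  have hc1 := hclose x t ht
  have hε₁3 : ε₁ ≤ ε / 3 := min_le_left _ _
  have heq : w (x : ℂ) t - (S.V Y x t : ℝ)
      = (w (x : ℂ) t - (S.V Y' x t : ℝ)) + ((S.V Y' x t - S.V Y x t : ℝ) : ℂ) := by
    push_cast; ring
  rw [heq]
  refine (norm_add_le _ _).trans ?_
  rw [Complex.norm_real, Real.norm_eq_abs]
  linarith

end Pool.Agent.Helper39.FT
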